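import Pool.Agent.Results.MP_606be1_nt.Spectrum

/-! The real case, the case of an open set of bases, and the laws `N(x) ~ L (log x)^2`. -/

namespace Pool.Agent.Lib.MP_606be1_nt.SC

open Real Set Filter Asymptotics

/-- the statement of the first version of the hand-in -/
theorem realCase (β u v : ℝ) (hβ : 1 < β) (hu : 1 ≤ u) (huv : u < v) (F : ℝ → ℕ)
    (hF : Monotone F) :
    ∃ α : ℝ, u < α ∧ α < v ∧ ∃ C : ℝ, 1 ≤ C ∧ ∀ᶠ x : ℝ in Filter.atTop, ∃ k : ℕ,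
      {p : ℕ × ℕ | |α ^ p.1 - β ^ p.2| ≤ x}.encard = k ∧
      (F (x / C) : ℝ) - C * Real.log x ≤ k - Real.log x ^ 2 / (Real.log α * Real.log β) ∧
      (k : ℝ) - Real.log x ^ 2 / (Real.log α * Real.log β) ≤ F (C * x) + C * Real.log x := by
  have hb := log_pos hβ
  have nb : ‖(β : ℂ)‖ = β := by rw [Complex.norm_real, Real.norm_of_nonneg (by linarith)]
  obtain ⟨ξ, α, h1, h2, h3, C, h4, h5⟩ := Pool.Agent.Results.MP_606be1_nt.Spectrum.result
    (β : ℂ) (log β : ℝ) 1 (by rwa [nb]) (by rw [← Complex.ofReal_exp, exp_log (by linarith)])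
    IsOfFinOrder.one (log u / log β) (log v / log β) (div_nonneg (log_nonneg hu) hb.le)
    (by gcongr) F hF
  rw [one_mul, ← Complex.ofReal_mul, ← Complex.ofReal_exp] at h3
  rw [div_lt_iff₀ hb, log_lt_iff_lt_exp (by linarith)] at h1
  rw [lt_div_iff₀ hb, lt_log_iff_exp_lt (by linarith)] at h2
  refine ⟨_, h1, h2, C, h4, ?_⟩
  have na : ‖α‖ = exp (ξ * log β) := by
    rw [h3, Complex.norm_real, Real.norm_of_nonneg (exp_pos _).le]
  rw [na, nb, h3] at h5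
  refine h5.mono fun x ⟨k, k1, k2⟩ => ⟨k, ?_, k2⟩
  rw [← k1]
  exact congrArg encard (Tc_real _ _ x).symm

/-- every nonempty open set of bases of modulus above one -/
theorem openCase (β : ℂ) (hβ : 1 < ‖β‖) (S : Set ℂ) (hS : ∀ α ∈ S, 1 < ‖α‖) (h1 : IsOpen S)
    (h2 : S.Nonempty) (F : ℝ → ℕ) (hF : Monotone F) :
    ∃ α ∈ S, ∃ C : ℝ, 1 ≤ C ∧ ∀ᶠ x : ℝ in Filter.atTop, ∃ k : ℕ,
      {p : ℕ × ℕ | ‖α ^ p.1 - β ^ p.2‖ ≤ x}.encard = k ∧
      (F (x / C) : ℝ) - C * Real.log x ≤ k - Real.log x ^ 2 / (Real.log ‖α‖ * Real.log ‖β‖) ∧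
      (k : ℝ) - Real.log x ^ 2 / (Real.log ‖α‖ * Real.log ‖β‖) ≤
        F (C * x) + C * Real.log x := by
  obtain ⟨α, hα⟩ := h2
  have hB : Complex.exp (Complex.log β) = β := Complex.exp_log (norm_pos_iff.1 (by linarith))
  set B := Complex.log β with hB'
  have b0 : 0 < B.re := by rw [hB', Complex.log_re]; exact log_pos hβ
  have a0 : 0 < ‖α‖ := by linarith [hS α hα]
  set ξ : ℝ := log ‖α‖ / B.re with hξ
  have x0 : 0 < ξ := div_pos (log_pos (hS α hα)) b0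
  have n1 : ‖α / Complex.exp (ξ * B)‖ = 1 := by
    rw [norm_div, Complex.norm_exp, Complex.re_ofReal_mul, hξ, div_mul_cancel₀ _ b0.ne',
      exp_log a0, div_self a0.ne']
  obtain ⟨θ, hθ⟩ := (Complex.norm_eq_one_iff _).1 n1
  obtain ⟨r, hr⟩ := (Rat.denseRange_cast (𝕜 := ℝ)).exists_mem_open
    (s := (fun r : ℝ => Complex.exp (r * (2 * π * Complex.I)) * Complex.exp (ξ * B)) ⁻¹' S)
    (h1.preimage (by fun_prop)) ⟨θ / (2 * π), by
      have : ((θ / (2 * π) : ℝ) : ℂ) * (2 * π * Complex.I) = θ * Complex.I := by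
        have : (π : ℂ) ≠ 0 := by exact_mod_cast pi_ne_zero
        push_cast
        field_simp
      rw [mem_preimage, this, hθ, div_mul_cancel₀ _ (Complex.exp_ne_zero _)]
      exact hα⟩
  obtain ⟨s, t, h3, h4⟩ := mem_nhds_iff_exists_Ioo_subset.1 ((h1.preimage (f := fun ξ : ℝ =>
    Complex.exp ((r : ℝ) * (2 * π * Complex.I)) * Complex.exp (ξ * B)) (by fun_prop)).mem_nhds hr)
  obtain ⟨y, γ, y1, y2, y3, h5⟩ := Pool.Agent.Results.MP_606be1_nt.Spectrum.result β B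
    (Complex.exp ((r : ℝ) * (2 * π * Complex.I))) hβ hB
    (isOfFinOrder_iff_pow_eq_one.2 ⟨r.den, r.den_pos, by
      rw [← Complex.exp_nat_mul, ← Complex.exp_int_mul_two_pi_mul_I r.num, ← mul_assoc]
      congr 2
      exact_mod_cast Rat.den_mul_eq_num r⟩) ξ t x0.le h3.2 F hF
  exact ⟨γ, y3 ▸ h4 ⟨h3.1.trans y1, y2⟩, h5⟩

theorem law (β u v : ℝ) (hβ : 1 < β) (hu : 1 ≤ u) (huv : u < v) (l : ℝ) (hl : 0 ≤ l) :
    ∃ α : ℝ, u < α ∧ α < v ∧ (∀ x, {p : ℕ × ℕ | |α ^ p.1 - β ^ p.2| ≤ x}.Finite) ∧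
      IsEquivalent atTop (fun x : ℝ => (({p : ℕ × ℕ | |α ^ p.1 - β ^ p.2| ≤ x}.ncard : ℕ) : ℝ))
        (fun x => (1 / (log α * log β) + l) * log x ^ 2) := by
  obtain ⟨α, h1, h2, C, C1, hC⟩ := realCase β u v hβ hu huv
    (fun y => ⌊l * log (max y 1) ^ 2⌋₊) fun y z h => Nat.floor_le_floor (by
      have := log_nonneg (le_max_right y 1)
      gcongr)
  have ha := log_pos (hu.trans_lt h1)
  have hb := log_pos hβ
  refine ⟨α, h1, h2, fun x => ?_, ?_⟩
  · obtain ⟨y, ⟨k, hk, -⟩, hy⟩ := (hC.and (eventually_ge_atTop x)).exists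
    exact (finite_of_encard_eq_coe hk).subset fun p hp => le_trans hp hy
  have c0 := log_nonneg C1
  refine IsLittleO.trans_isBigO (g := fun x : ℝ => log x ^ 2) ?_
    ((isBigO_refl _ _).const_mul_right (by positivity))
  refine IsBigO.trans_isLittleO (IsBigO.of_bound 1 ?_)
    (lin_isLittleO (C + 2 * l * log C) (l * log C ^ 2 + 1))
  filter_upwards [hC, eventually_ge_atTop C] with x ⟨k, k1, k2, k3⟩ hx
  have x1 : 1 ≤ x := C1.trans hx
  have e0 : {p : ℕ × ℕ | |α ^ p.1 - β ^ p.2| ≤ x}.ncard = k := by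
    rw [ncard_def, k1]
    rfl
  rw [max_eq_left ((one_le_div (by linarith)).2 hx), log_div (by linarith) (by linarith)] at k2
  rw [max_eq_left (one_le_mul_of_one_le_of_one_le C1 x1), log_mul (by linarith) (by linarith)]
    at k3
  have e1 := Nat.lt_floor_add_one (l * (log x - log C) ^ 2)
  have e2 := Nat.floor_le (show 0 ≤ l * (log C + log x) ^ 2 by positivity)
  have e3 : (1 / (log α * log β) + l) * log x ^ 2 =
      log x ^ 2 / (log α * log β) + l * log x ^ 2 := by ring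
  have e4 : 0 ≤ l * log C ^ 2 := by positivity
  rw [one_mul, Real.norm_eq_abs, Real.norm_eq_abs]
  refine le_trans (abs_le.2 ⟨?_, ?_⟩) (le_abs_self _) <;> simp only [Pi.sub_apply, e0, e3] <;>
    linarith

end Pool.Agent.Lib.MP_606be1_nt.SC
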