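import Pool.Agent.Lib.MP_606be1_nt.SP.Main
import Pool.Agent.Lib.MP_606be1_nt.TH.CxLow

/-! Complex bases: every nondecreasing function occurs as the excess of the count. -/

namespace Pool.Agent.Lib.MP_606be1_nt.SC

open Real Set Filter TH

lemma Tc_real (a b x : ℝ) : Tc (a : ℂ) (b : ℂ) x = T a b x := Set.ext fun p => by
  change ‖(a : ℂ) ^ p.1 - (b : ℂ) ^ p.2‖ ≤ x ↔ |a ^ p.1 - b ^ p.2| ≤ x
  rw [← Real.norm_eq_abs, ← Complex.norm_real]
  push_cast
  rfl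

lemma half_ge {c x : ℝ} (hc : 0 < c) (hx : 2 ≤ x) :
    log x ^ 2 / c - 2 * log 2 / c * log x ≤ log (x / 2) ^ 2 / c := by
  rw [log_div (by linarith) two_ne_zero]
  have e : (log x - log 2) ^ 2 / c = log x ^ 2 / c - 2 * log 2 / c * log x + log 2 ^ 2 / c := by
    ring
  have : 0 ≤ log 2 ^ 2 / c := by positivity
  linarith

/-- the count is at most the box plus the far solutions -/
lemma boxU {α β : ℂ} (hα : 1 < ‖α‖) (hβ : 1 < ‖β‖) {W : ℝ} (hW : 1 ≤ W) :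
    ∃ K : ℝ, 0 ≤ K ∧ ∀ x, 1 ≤ x → 1 ≤ log x → ∀ U : Set (ℕ × ℕ), U.Finite →
      (∀ p ∈ Tc α β x, W * x < ‖α‖ ^ p.1 → p ∈ U) → (Tc α β x).Finite ∧
        ((Tc α β x).ncard : ℝ) ≤ log x ^ 2 / (log ‖α‖ * log ‖β‖) + K * log x + U.ncard := by
  classical
  have ha := log_pos hα
  have hb := log_pos hβ
  have w1 := log_nonneg hW
  have w2 : 0 ≤ log (W + 1) := log_nonneg (by linarith)
  set A := (log W / log ‖α‖ + 1) / log ‖β‖ + (log (W + 1) / log ‖β‖ + 1) / log ‖α‖ with hA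
  set B := (log W / log ‖α‖ + 1) * (log (W + 1) / log ‖β‖ + 1) with hB
  refine ⟨A + B, by positivity, fun x hx hL U hU h => ?_⟩
  have x1 : 1 ≤ W * x := one_le_mul_of_one_le_of_one_le hW hx
  have x2 : 1 ≤ (W + 1) * x := one_le_mul_of_one_le_of_one_le (by linarith) hx
  set N := ⌊log (W * x) / log ‖α‖⌋₊ + 1 with hN
  set M := ⌊log ((W + 1) * x) / log ‖β‖⌋₊ + 1 with hM
  have hsub : Tc α β x ⊆
      ((Finset.range N ×ˢ Finset.range M : Finset (ℕ × ℕ)) : Set (ℕ × ℕ)) ∪ U := by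
    rintro ⟨n, m⟩ h0
    have h' : |‖α‖ ^ n - ‖β‖ ^ m| ≤ x := Tc_sub h0
    rcases le_or_gt (‖α‖ ^ n) (W * x) with hn | hn
    · left
      simp only [Finset.coe_product, Finset.coe_range, mem_prod, mem_Iio]
      exact ⟨(pow_le_iff hα x1 _).1 hn,
        (pow_le_iff hβ x2 _).1 (by linarith [(abs_le.1 h').1])⟩
    · exact Or.inr (h _ h0 hn)
  have hf := (Finset.finite_toSet (Finset.range N ×ˢ Finset.range M)).union hU
  refine ⟨hf.subset hsub, ?_⟩
  have h1 := (ncard_le_ncard hsub hf).trans (ncard_union_le _ _)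
  rw [ncard_coe_finset, Finset.card_product, Finset.card_range, Finset.card_range] at h1
  have h2 : ((Tc α β x).ncard : ℝ) ≤ N * M + U.ncard := by exact_mod_cast h1
  have h3 : (N : ℝ) ≤ log (W * x) / log ‖α‖ + 1 := by
    rw [hN]; push_cast; linarith [Nat.floor_le (div_nonneg (log_nonneg x1) ha.le)]
  have h4 : (M : ℝ) ≤ log ((W + 1) * x) / log ‖β‖ + 1 := by
    rw [hM]; push_cast; linarith [Nat.floor_le (div_nonneg (log_nonneg x2) hb.le)]
  have h5 : (N : ℝ) * M ≤ (log (W * x) / log ‖α‖ + 1) * (log ((W + 1) * x) / log ‖β‖ + 1) :=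
    mul_le_mul h3 h4 (Nat.cast_nonneg _) ((Nat.cast_nonneg _).trans h3)
  rw [log_mul (by linarith) (by linarith), log_mul (by linarith) (by linarith)] at h5
  have e1 : ((log W + log x) / log ‖α‖ + 1) * ((log (W + 1) + log x) / log ‖β‖ + 1)
      = log x ^ 2 / (log ‖α‖ * log ‖β‖) + (A * log x + B) := by
    rw [hA, hB]; field_simp; ring
  have e2 : B ≤ B * log x := le_mul_of_one_le_right (by positivity) hL
  have e3 : (A + B) * log x = A * log x + B * log x := by ring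
  linarith

/-- the count is at least the box plus the far solutions -/
lemma boxL {α β : ℂ} (hα : 1 < ‖α‖) (hβ : 1 < ‖β‖) {x : ℝ} (hx : 2 ≤ x) (hT : (Tc α β x).Finite)
    {U : Set (ℕ × ℕ)} (hU : ∀ p ∈ U, p ∈ Tc α β x ∧ x ≤ ‖α‖ ^ p.1) :
    log x ^ 2 / (log ‖α‖ * log ‖β‖) - 2 * log 2 / (log ‖α‖ * log ‖β‖) * log x + U.ncard ≤
      (Tc α β x).ncard := by
  have hf : U.Finite := hT.subset fun p hp => (hU p hp).1
  have e0 : 2 * (x / 2) = x := by ring
  have h := lowerC hα hβ (y := x / 2) (by linarith) (by rwa [e0]) hf.toFinset fun p hp => by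
    obtain ⟨h1, h2⟩ := hU p (hf.mem_toFinset.1 hp)
    refine ⟨by rwa [e0], ?_⟩
    by_contra! hc
    have := (pow_le_iff hα (y := x / 2) (by linarith) p.1).2 (Nat.lt_succ_of_le hc)
    linarith
  rw [e0, ← ncard_eq_toFinset_card _ hf] at h
  linarith [half_ge (mul_pos (log_pos hα) (log_pos hβ)) hx]

lemma transferS {α β : ℂ} (hα : 1 < ‖α‖) (hβ : 1 < ‖β‖) {d : ℕ} (hd : 0 < d) {W : ℝ} (hW : 2 ≤ W)
    (h1 : ∀ x, 0 < x → ∀ n m, (n, m) ∈ Tc α β x → W * x < ‖α‖ ^ n → d ∣ n)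
    (h2 : ∀ y n m, (n, m) ∈ T (‖α‖ ^ d) ‖β‖ y → 2 * y ≤ (‖α‖ ^ d) ^ n →
      (d * n, m) ∈ Tc α β (W * y)) {F : ℝ → ℕ} (hF : Monotone F) {C : ℝ} (hC : 1 ≤ C)
    (H : ∀ᶠ x in atTop, ∃ k : ℕ, (T (‖α‖ ^ d) ‖β‖ x).encard = k ∧
      F (x / C) - C * log x ≤ k - log x ^ 2 / (log (‖α‖ ^ d) * log ‖β‖) ∧
      k - log x ^ 2 / (log (‖α‖ ^ d) * log ‖β‖) ≤ F (C * x) + C * log x) :
    ∃ C : ℝ, 1 ≤ C ∧ ∀ᶠ x in atTop, ∃ k : ℕ, (Tc α β x).encard = k ∧
      F (x / C) - C * log x ≤ k - log x ^ 2 / (log ‖α‖ * log ‖β‖) ∧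
      k - log x ^ 2 / (log ‖α‖ * log ‖β‖) ≤ F (C * x) + C * log x := by
  set a := ‖α‖ ^ d with ha'
  have ha : 1 < a := one_lt_pow₀ hα hd.ne'
  have na : ‖(a : ℂ)‖ = a := by rw [Complex.norm_real, Real.norm_of_nonneg (by linarith)]
  have nb : ‖((‖β‖ : ℝ) : ℂ)‖ = ‖β‖ := by rw [Complex.norm_real, norm_norm]
  obtain ⟨K1, k1, U1⟩ := boxU hα hβ (W := W) (by linarith)
  obtain ⟨K2, k2, U2⟩ := boxU (α := (a : ℂ)) (β := ((‖β‖ : ℝ) : ℂ)) (by rwa [na]) (by rwa [nb])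
    (W := W) (by linarith)
  simp only [Tc_real, na, nb] at U2
  have l2 : 0 < log 2 := log_pos (by norm_num)
  have la := log_pos hα
  have la' := log_pos ha
  have lb := log_pos hβ
  set K3 := 2 * log 2 / (log ‖α‖ * log ‖β‖) with hK3
  set K4 := 2 * log 2 / (log a * log ‖β‖) with hK4
  have k3 : 0 ≤ K3 := by positivity
  have k4 : 0 ≤ K4 := by positivity
  have CW : C ≤ C * W := le_mul_of_one_le_right (by linarith) (by linarith)
  set g : ℕ × ℕ → ℕ × ℕ := fun p => (d * p.1, p.2) with hg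
  have ginj : Function.Injective g := fun p q h =>
    Prod.ext (Nat.eq_of_mul_eq_mul_left hd (congrArg Prod.fst h)) (congrArg Prod.snd h :)
  have tW : Tendsto (fun x : ℝ => x / W) atTop atTop := tendsto_id.atTop_div_const (by linarith)
  refine ⟨C * W + K1 + K2 + K3 + K4, by linarith, ?_⟩
  set C' := C * W + K1 + K2 + K3 + K4 with hC'
  filter_upwards [H, tW.eventually H, eventually_ge_atTop 2, tW.eventually_ge_atTop 1,
    tendsto_log_atTop.eventually_ge_atTop 1,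
    (tendsto_log_atTop.comp tW).eventually_ge_atTop 1] with x ⟨k, e1, _, e3⟩ ⟨k', f1, f2, _⟩ hx hy hL hL'
  change 1 ≤ log (x / W) at hL'
  set y := x / W with hy'
  have yx : W * y = x := by rw [hy']; field_simp
  have yx' : y ≤ x := by nlinarith
  have hT : (T a ‖β‖ x).Finite := finite_of_encard_eq_coe e1
  have hT' : (T a ‖β‖ y).Finite := finite_of_encard_eq_coe f1
  have n1 : (T a ‖β‖ x).ncard = k := by rw [ncard_def, e1]; rfl
  have n2 : (T a ‖β‖ y).ncard = k' := by rw [ncard_def, f1]; rfl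
  have Wx : x ≤ W * x := le_mul_of_one_le_left (by linarith) (by linarith)
  obtain ⟨hf, u1⟩ := U1 x (by linarith) hL (g '' {p ∈ T a ‖β‖ x | W * x < a ^ p.1})
    ((hT.subset (sep_subset _ _)).image g) (by
      rintro ⟨n, m⟩ p1 p2
      obtain ⟨n', rfl⟩ := h1 x (by linarith) n m p1 p2
      have p3 : |‖α‖ ^ (d * n') - ‖β‖ ^ m| ≤ x := Tc_sub p1
      rw [pow_mul] at p2 p3
      exact ⟨(n', m), ⟨p3, p2⟩, rfl⟩)
  rw [ncard_image_of_injective _ ginj] at u1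
  have u2 := boxL (α := (a : ℂ)) (β := ((‖β‖ : ℝ) : ℂ)) (by rwa [na]) (by rwa [nb]) hx
    (by rwa [Tc_real]) (U := {p ∈ T a ‖β‖ x | W * x < a ^ p.1})
    fun p hp => by rw [Tc_real, na]; exact ⟨hp.1, Wx.trans hp.2.le⟩
  rw [Tc_real, na, nb, n1, ← hK4] at u2
  have v1 := boxL hα hβ hx hf (U := g '' {p ∈ T a ‖β‖ y | W * y < a ^ p.1}) (by
    rintro _ ⟨⟨n, m⟩, ⟨p1, p2⟩, rfl⟩
    refine ⟨yx ▸ h2 y n m p1 (le_trans (by nlinarith) p2.le), ?_⟩
    simp only [hg, pow_mul]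
    exact yx ▸ p2.le)
  rw [ncard_image_of_injective _ ginj, ← hK3] at v1
  have v2 := (U2 y hy hL' {p ∈ T a ‖β‖ y | W * y < a ^ p.1} (hT'.subset (sep_subset _ _))
    fun p p1 p2 => ⟨p1, p2⟩).2
  rw [n2] at v2
  have w1 : log y ≤ log x := log_le_log (by linarith) yx'
  have w2 : (F (C * x) : ℝ) ≤ F (C' * x) := by
    exact_mod_cast hF (mul_le_mul_of_nonneg_right (by linarith) (by linarith))
  have w3 : (F (x / C') : ℝ) ≤ F (y / C) := by
    rw [hy', div_div]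
    exact_mod_cast hF (div_le_div_of_nonneg_left (by linarith) (by positivity) (by linarith))
  have w4 : C' * log x = C * W * log x + K1 * log x + K2 * log x + K3 * log x + K4 * log x := by
    rw [hC']; ring
  have w5 : C * log x ≤ C * W * log x := by gcongr
  have w6 : C * log y ≤ C * log x := by gcongr
  have w7 : K2 * log y ≤ K2 * log x := by gcongr
  have w8 : 0 ≤ K1 * log x := by positivity
  have w9 : 0 ≤ K2 * log x := by positivity
  have w10 : 0 ≤ K3 * log x := by positivity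
  have w11 : 0 ≤ K4 * log x := by positivity
  exact ⟨(Tc α β x).ncard, hf.cast_ncard_eq.symm, by linarith, by linarith⟩

theorem spectrumC {β B ζ : ℂ} (hβ : 1 < ‖β‖) (hB : Complex.exp B = β) (hζ : IsOfFinOrder ζ)
    {s t : ℝ} (hs : 0 ≤ s) (hst : s < t) (F : ℝ → ℕ) (hF : Monotone F) :
    ∃ ξ : ℝ, s < ξ ∧ ξ < t ∧ ∃ C : ℝ, 1 ≤ C ∧ ∀ᶠ x in atTop, ∃ k : ℕ,
      (Tc (ζ * Complex.exp (ξ * B)) β x).encard = k ∧
      F (x / C) - C * log x ≤ k - log x ^ 2 / (log ‖ζ * Complex.exp (ξ * B)‖ * log ‖β‖) ∧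
      k - log x ^ 2 / (log ‖ζ * Complex.exp (ξ * B)‖ * log ‖β‖) ≤ F (C * x) + C * log x := by
  set d := orderOf ζ with hd
  have d0 : 0 < d := hζ.orderOf_pos
  have d1 : (0 : ℝ) < d := by exact_mod_cast d0
  have z1 : ζ ^ d = 1 := pow_orderOf_eq_one ζ
  have z2 : ‖ζ‖ = 1 := by
    have := congrArg norm z1
    rwa [norm_pow, norm_one, pow_eq_one_iff_of_nonneg (norm_nonneg _) d0.ne'] at this
  have b1 : log ‖β‖ = B.re := by rw [← hB, Complex.norm_exp, log_exp]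
  have b0 : 0 < B.re := b1 ▸ log_pos hβ
  obtain ⟨δ, δ0, δ1, hδ⟩ := fin_pos (Finset.Ico 1 d) (fun i => ‖ζ ^ i - 1‖) fun i hi => by
    obtain ⟨i1, i2⟩ := Finset.mem_Ico.1 hi
    rw [norm_pos_iff, sub_ne_zero]
    exact pow_ne_one_of_lt_orderOf (by omega) i2
  obtain ⟨η, η0, hη⟩ := eta_ex b0 δ0 δ1
  obtain ⟨a, a1, a2, C, C1, hC⟩ := SP.spectrum hβ (u := exp (d * (s * B.re)))
    (v := exp (d * (t * B.re))) (one_le_exp (by positivity)) (by gcongr) F hF
  have ha : 1 < a := (one_le_exp (by positivity)).trans_lt a1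
  set ξ := log a / (d * B.re) with hξ
  have x1 : log a = d * (ξ * B.re) := by rw [hξ]; field_simp
  clear_value ξ
  rw [← lt_log_iff_exp_lt (by linarith), x1] at a1
  rw [← log_lt_iff_lt_exp (by linarith), x1] at a2
  have x2 : s < ξ := lt_of_mul_lt_mul_right (lt_of_mul_lt_mul_left a1 d1.le) b0.le
  have x3 : ξ < t := lt_of_mul_lt_mul_right (lt_of_mul_lt_mul_left a2 d1.le) b0.le
  refine ⟨ξ, x2, x3, ?_⟩
  have n2 : ‖ζ * Complex.exp (ξ * B)‖ = exp (ξ * B.re) := by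
    rw [norm_mul, z2, one_mul, Complex.norm_exp, Complex.re_ofReal_mul]
  have n3 : ∀ n m : ℕ, ‖(ζ * Complex.exp (ξ * B)) ^ n - β ^ m‖ =
      ‖ζ * Complex.exp (ξ * B)‖ ^ n * ‖ζ ^ n - Complex.exp ((m - n * ξ : ℝ) * B)‖ := fun n m => by
    rw [norm_mul, z2, one_mul, ← norm_pow, ← norm_mul, ← hB, mul_pow, ← Complex.exp_nat_mul,
      ← Complex.exp_nat_mul, mul_sub, ← Complex.exp_add, mul_comm]
    congr 3
    push_cast
    ring
  set α := ζ * Complex.exp (ξ * B) with hα'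
  have hα : 1 < ‖α‖ := by
    rw [n2]
    exact one_lt_exp_iff.2 (mul_pos (hs.trans_lt x2) b0)
  have n4 : ‖α‖ ^ d = a := by
    rw [n2, ← exp_nat_mul, ← x1, exp_log (by linarith)]
  set L := 2 / B.re * (‖B‖ * exp (1 / B.re * ‖B‖)) with hL
  have L0 : 0 ≤ L := by positivity
  have η1 : 0 < 1 / η := by positivity
  refine transferS hα hβ d0 (W := 2 + 1 / η + L) (by linarith) (fun x hx n m h1 h2 => ?_)
    (fun y n m h1 h2 => ?_) hF C1 (by rwa [n4])
  · by_contra hn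
    have e1 := hη (ζ ^ n) (by rw [norm_pow, z2, one_pow]) (by
      rw [← pow_mod_orderOf]
      exact hδ _ (Finset.mem_Ico.2 ⟨Nat.pos_of_ne_zero fun e => hn (Nat.dvd_of_mod_eq_zero e),
        Nat.mod_lt _ d0⟩)) (m - n * ξ)
    have e2 : ‖α ^ n - β ^ m‖ ≤ x := h1
    rw [n3] at e2
    have e3 : ‖α‖ ^ n * η ≤ x := le_trans (by gcongr) e2
    have e4 : 1 / η * x < ‖α‖ ^ n := lt_of_le_of_lt (by gcongr; linarith) h2
    rw [div_mul_eq_mul_div, div_lt_iff₀ η0] at e4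
    linarith
  · rw [n4] at h1 h2
    have y0 : 0 ≤ y := (abs_nonneg _).trans h1
    have p0 : 0 < a ^ n := by positivity
    have e0 := approx_of_mem ha hβ h1 h2
    have e1 : |(m : ℝ) - (d * n : ℕ) * ξ| = |n * (log a / log ‖β‖) - m| := by
      rw [abs_sub_comm, x1, b1]
      congr 2
      push_cast
      field_simp
    change ‖α ^ _ - β ^ _‖ ≤ _
    rw [n3, pow_mul ζ, z1, one_pow, pow_mul, n4, norm_sub_rev]
    have e5 := Complex.norm_exp_sub_sum_le_norm_mul_exp (((m : ℝ) - (d * n : ℕ) * ξ : ℝ) * B) 1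
    rw [Finset.sum_range_one, pow_zero, Nat.factorial_zero, Nat.cast_one, div_one, pow_one,
      norm_mul, Complex.norm_real, Real.norm_eq_abs, e1] at e5
    have ε0 := abs_nonneg (n * (log a / log ‖β‖) - m)
    generalize |n * (log a / log ‖β‖) - m| = ε at *
    rw [b1] at e0
    have e6 : a ^ n * ε ≤ 2 / B.re * y := by
      rw [div_mul_eq_mul_div, le_div_iff₀ b0]
      linarith
    have e7 : ε ≤ 1 / B.re := by
      rw [le_div_iff₀ b0]
      exact le_of_mul_le_mul_left (a := a ^ n) (by linarith) p0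
    calc _ ≤ a ^ n * (ε * ‖B‖ * exp (1 / B.re * ‖B‖)) := by
          gcongr
          exact e5.trans (by gcongr)
      _ = a ^ n * ε * (‖B‖ * exp (1 / B.re * ‖B‖)) := by ring
      _ ≤ 2 / B.re * y * (‖B‖ * exp (1 / B.re * ‖B‖)) := by gcongr
      _ = L * y := by rw [hL]; ring
      _ ≤ _ := by gcongr; linarith

end Pool.Agent.Lib.MP_606be1_nt.SC
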